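import Mathlib
import Pool.Agent.W401.Cheb.Mean0

/-!
# From a mean value over the primes to Mertens sums
-/

set_option autoImplicit false

namespace Pool.Agent.V11291.JF

open Filter Topology Finset
open Pool.Agent.W401.Cheb (pr)

/-- Chebyshev's lower bound -/
theorem pc_ge {n : ℕ} (hn : 4 ≤ n) :
    (n : ℝ) / (4 * Real.log n) ≤ (Nat.primeCounting n : ℝ) := by
  have h1 := (Chebyshev.psi_ge n).trans (Chebyshev.psi_le_primeCounting_mul_log n)
  have hn' : (4 : ℝ) ≤ n := by exact_mod_cast hn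
  have hlog : 0 < Real.log n := Real.log_pos (by linarith)
  have h2 : Real.log ((n : ℝ) + 1) ≤ ((n : ℝ) + 1) / 8 - 1 + 3 * Real.log 2 := by
    have h3 := Real.log_le_sub_one_of_pos (x := ((n : ℝ) + 1) / 8) (by positivity)
    rw [Real.log_div (by positivity) (by norm_num)] at h3
    have h4 : Real.log 8 = 3 * Real.log 2 := by
      rw [show (8 : ℝ) = 2 ^ 3 by norm_num, Real.log_pow]
      norm_num
    linarith
  have h5 := Real.log_two_gt_d9
  have h6 := Real.log_two_lt_d9
  rw [div_le_iff₀ (by positivity)]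
  nlinarith

theorem ll_step {y : ℕ} (hy : 2 ≤ y) : Real.log (Real.log ((y + 1 : ℕ) : ℝ)) -
    Real.log (Real.log (y : ℝ)) ≤ 4 * (1 / (Real.log ((y + 1 : ℕ) : ℝ) * ((y + 2 : ℕ) : ℝ))) := by
  have hy' : (2 : ℝ) ≤ y := by exact_mod_cast hy
  have hl : 0 < Real.log y := Real.log_pos (by linarith)
  have hl1 : 0 < Real.log ((y + 1 : ℕ) : ℝ) := Real.log_pos (by push_cast; linarith)
  have h1 : Real.log (Real.log ((y + 1 : ℕ) : ℝ)) - Real.log (Real.log (y : ℝ)) ≤
      Real.log ((y + 1 : ℕ) : ℝ) / Real.log y - 1 := by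
    rw [← Real.log_div hl1.ne' hl.ne']
    exact Real.log_le_sub_one_of_pos (by positivity)
  have h2 : Real.log ((y + 1 : ℕ) : ℝ) - Real.log y ≤ 1 / y := by
    rw [← Real.log_div (by positivity) (by positivity)]
    refine (Real.log_le_sub_one_of_pos (by positivity)).trans (le_of_eq ?_)
    push_cast
    field_simp
    ring
  have h3 : Real.log ((y + 1 : ℕ) : ℝ) ≤ 2 * Real.log y := by
    have h4 : 2 * Real.log (y : ℝ) = Real.log ((y : ℝ) ^ 2) := by
      rw [Real.log_pow]
      norm_num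
    rw [h4]
    refine Real.log_le_log (by positivity) ?_
    push_cast
    nlinarith
  have h5 : Real.log ((y + 1 : ℕ) : ℝ) / Real.log y - 1 ≤ 1 / (y * Real.log y) := by
    rw [div_sub_one hl.ne', div_le_div_iff₀ hl (by positivity)]
    have h6 : (Real.log ((y + 1 : ℕ) : ℝ) - Real.log y) * (y * Real.log y) ≤
        1 / y * (y * Real.log y) := mul_le_mul_of_nonneg_right h2 (by positivity)
    refine h6.trans (le_of_eq ?_)
    field_simp
  refine h1.trans (h5.trans ?_)
  rw [← mul_div_assoc, mul_one, div_le_div_iff₀ (by positivity) (by positivity)]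
  push_cast
  have h7 : Real.log ((y : ℝ) + 1) ≤ 2 * Real.log y := by
    have := h3
    push_cast at this
    exact this
  have h8 : Real.log ((y : ℝ) + 1) * ((y : ℝ) + 2) ≤ (2 * Real.log y) * (2 * y) :=
    mul_le_mul h7 (by linarith) (by positivity) (by positivity)
  linarith

theorem pr_succ (y : ℕ) (a : ℕ → ℝ) : ∑ p ∈ pr (y + 1), a p =
    ∑ p ∈ pr y, a p + if (y + 1).Prime then a (y + 1) else 0 := by
  unfold pr
  rw [Finset.range_add_one (n := y + 1), Finset.filter_insert]
  split_ifs with h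
  · rw [Finset.sum_insert (by simp), add_comm]
  · rw [add_zero]

/-- a positive mean value gives a lower bound for the sum with weights `1 / p` -/
theorem mer_mean {a : ℕ → ℝ} (ha : ∀ p, 0 ≤ a p)
    (h : Tendsto (fun N : ℕ => (∑ p ∈ pr N, a p) / (Nat.primeCounting N : ℝ)) atTop (𝓝 1)) :
    ∃ δ C : ℝ, 0 < δ ∧ ∀ y : ℕ, 3 ≤ y → δ * Real.log (Real.log y) - C ≤
      ∑ p ∈ pr y, a p / p := by
  obtain ⟨N0, hN0⟩ := Filter.eventually_atTop.1 (h.eventually (lt_mem_nhds
    (show (1 / 2 : ℝ) < 1 by norm_num)))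
  obtain ⟨N, hN⟩ : ∃ N : ℕ, N = max N0 4 := ⟨_, rfl⟩
  have hN4 : 4 ≤ N := by omega
  have hA : ∀ n : ℕ, N ≤ n → (n : ℝ) / (8 * Real.log n) ≤ ∑ p ∈ pr n, a p := by
    intro n hn
    have h1 := hN0 n (by omega)
    have h2 := pc_ge (n := n) (by omega)
    have hn' : (4 : ℝ) ≤ n := by exact_mod_cast (by omega : 4 ≤ n)
    have hlog : 0 < Real.log n := Real.log_pos (by linarith)
    have h3 : (0 : ℝ) < Nat.primeCounting n := lt_of_lt_of_le (by positivity) h2
    rw [lt_div_iff₀ h3] at h1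
    have h4 : (n : ℝ) / (8 * Real.log n) = 1 / 2 * ((n : ℝ) / (4 * Real.log n)) := by
      field_simp
      norm_num
    rw [h4]
    linarith
  have hnn : ∀ n : ℕ, 0 ≤ ∑ p ∈ pr n, a p := fun n => Finset.sum_nonneg fun p _ => ha p
  obtain ⟨L, hL⟩ : ∃ L : ℕ → ℝ, ∀ n, L n = ∑ p ∈ pr n, a p / p - (∑ p ∈ pr n, a p) / ((n : ℝ) + 1) :=
    ⟨_, fun _ => rfl⟩
  have hstep : ∀ n, L (n + 1) - L n = (∑ p ∈ pr (n + 1), a p) / (((n : ℝ) + 1) * ((n : ℝ) + 2)) := by
    intro n
    rw [hL, hL, pr_succ n (fun p => a p / p), pr_succ n a]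
    push_cast
    split_ifs with hp
    · field_simp
      ring
    · field_simp
      ring
  have hlow : ∀ n, N ≤ n → 1 / 32 * (Real.log (Real.log n) - Real.log (Real.log N)) + L N ≤ L n := by
    intro n hn
    induction n, hn using Nat.le_induction with
    | base => linarith
    | succ n hn ih =>
      have h1 := hstep n
      have h2 := hA (n + 1) (by omega)
      have h3 := ll_step (y := n) (by omega)
      have hn' : (4 : ℝ) ≤ n := by exact_mod_cast (by omega : 4 ≤ n)
      have hlog : 0 < Real.log ((n + 1 : ℕ) : ℝ) := Real.log_pos (by push_cast; linarith)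
      have h4 : 1 / 8 * (1 / (Real.log ((n + 1 : ℕ) : ℝ) * ((n + 2 : ℕ) : ℝ))) ≤
          (∑ p ∈ pr (n + 1), a p) / (((n : ℝ) + 1) * ((n : ℝ) + 2)) := by
        rw [le_div_iff₀ (by positivity)]
        refine le_trans (le_of_eq ?_) h2
        push_cast
        field_simp
      linarith
  refine ⟨1 / 32, |1 / 32 * Real.log (Real.log N) - L N| + 1 / 32 * |Real.log (Real.log N)|,
    by norm_num, fun y hy => ?_⟩
  have hB0 : 0 ≤ ∑ p ∈ pr y, a p / p := Finset.sum_nonneg fun p _ => div_nonneg (ha p) (by positivity)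
  by_cases hyN : N ≤ y
  · have h1 := hlow y hyN
    have h2 : L y ≤ ∑ p ∈ pr y, a p / p := by
      rw [hL]
      have : 0 ≤ (∑ p ∈ pr y, a p) / ((y : ℝ) + 1) := div_nonneg (hnn y) (by positivity)
      linarith
    have h3 := le_abs_self (1 / 32 * Real.log (Real.log N) - L N)
    have h4 := abs_nonneg (Real.log (Real.log N))
    linarith
  · have hy' : (3 : ℝ) ≤ y := by exact_mod_cast hy
    have h1 : Real.log (Real.log y) ≤ Real.log (Real.log N) := by
      have h2 : Real.log y ≤ Real.log N :=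
        Real.log_le_log (by linarith) (by exact_mod_cast (by omega : y ≤ N))
      exact Real.log_le_log (Real.log_pos (by linarith)) h2
    have h3 := le_abs_self (Real.log (Real.log N))
    have h4 := abs_nonneg (1 / 32 * Real.log (Real.log N) - L N)
    linarith

/-- the same for a set of primes -/
theorem mer_set {a : ℕ → ℝ} (ha : ∀ p, 0 ≤ a p)
    (h : Tendsto (fun N : ℕ => (∑ p ∈ pr N, a p) / (Nat.primeCounting N : ℝ)) atTop (𝓝 1))
    {S : ℕ → Prop} [DecidablePred S] {D : ℕ} (hD : 0 < D) {K : ℝ} (hK : 0 < K)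
    (hS : ∀ p : ℕ, p.Prime → ¬ p ∣ D → a p ≠ 0 → S p ∧ a p ≤ K) :
    ∃ δ C : ℝ, 0 < δ ∧ ∀ y : ℕ, 3 ≤ y → δ * Real.log (Real.log y) - C ≤
      ∑ p ∈ (range (y + 1)).filter S, (1 : ℝ) / p := by
  obtain ⟨δ, C, hδ, hC⟩ := mer_mean ha h
  refine ⟨δ / K, (C + ∑ p ∈ D.primeFactors, a p / p) / K, by positivity, fun y hy => ?_⟩
  have h1 := hC y hy
  have h2 : ∑ p ∈ pr y, a p / p ≤ K * ∑ p ∈ (range (y + 1)).filter S, (1 : ℝ) / p +
      ∑ p ∈ D.primeFactors, a p / p := by
    have h3 : ∑ p ∈ pr y, a p / p = ∑ p ∈ (pr y).filter (fun p => p ∣ D), a p / p +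
        ∑ p ∈ (pr y).filter (fun p => ¬ p ∣ D), a p / p :=
      (Finset.sum_filter_add_sum_filter_not _ _ _).symm
    have h4 : ∑ p ∈ (pr y).filter (fun p => p ∣ D), a p / p ≤ ∑ p ∈ D.primeFactors, a p / p := by
      refine Finset.sum_le_sum_of_subset_of_nonneg ?_ fun p _ _ => div_nonneg (ha p) (by positivity)
      intro p hp
      rw [Finset.mem_filter] at hp
      rw [Nat.mem_primeFactors]
      exact ⟨(Finset.mem_filter.1 hp.1).2, hp.2, hD.ne'⟩
    have h5 : ∑ p ∈ (pr y).filter (fun p => ¬ p ∣ D), a p / p ≤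
        K * ∑ p ∈ (range (y + 1)).filter S, (1 : ℝ) / p := by
      rw [Finset.mul_sum]
      have h6 : ∑ p ∈ (pr y).filter (fun p => ¬ p ∣ D), a p / p ≤
          ∑ p ∈ ((pr y).filter (fun p => ¬ p ∣ D)).filter S, K * (1 / (p : ℝ)) := by
        rw [← Finset.sum_filter_add_sum_filter_not ((pr y).filter (fun p => ¬ p ∣ D)) S
          (fun p : ℕ => a p / (p : ℝ))]
        have h7 : ∑ p ∈ ((pr y).filter (fun p => ¬ p ∣ D)).filter (fun p => ¬ S p),
            a p / (p : ℝ) = 0 := by
          refine Finset.sum_eq_zero fun p hp => ?_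
          rw [Finset.mem_filter, Finset.mem_filter] at hp
          by_contra h8
          have h9 : a p ≠ 0 := by
            intro h10
            apply h8
            rw [h10, zero_div]
          exact hp.2 (hS p (Finset.mem_filter.1 hp.1.1).2 hp.1.2 h9).1
        rw [h7, add_zero]
        refine Finset.sum_le_sum fun p hp => ?_
        rw [Finset.mem_filter, Finset.mem_filter] at hp
        rw [mul_one_div]
        refine div_le_div_of_nonneg_right ?_ (by positivity)
        by_cases h9 : a p = 0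
        · rw [h9]
          exact hK.le
        · exact (hS p (Finset.mem_filter.1 hp.1.1).2 hp.1.2 h9).2
      refine h6.trans (Finset.sum_le_sum_of_subset_of_nonneg ?_ fun p _ _ => by positivity)
      intro p hp
      rw [Finset.mem_filter, Finset.mem_filter] at hp
      rw [Finset.mem_filter]
      exact ⟨(Finset.mem_filter.1 hp.1.1).1, hp.2⟩
    linarith
  have h3 : δ / K * Real.log (Real.log y) - (C + ∑ p ∈ D.primeFactors, a p / p) / K =
      (δ * Real.log (Real.log y) - C - ∑ p ∈ D.primeFactors, a p / p) / K := by ring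
  rw [h3, div_le_iff₀ hK]
  linarith

end Pool.Agent.V11291.JF
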