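import Pool.Agent.Y697.CJ.LAJ2
import Pool.Agent.Y697.JQ.LA

/-!
# Several functions on the diagonal: the linear algebra

Adapted from `Pool.Agent.Y697.CJ.LAJ` (helper697): the diagonal may depend on the index.
-/

set_option autoImplicit false

open scoped Classical

namespace Pool.Agent.V11291.JF

open Finset Module Function
open Pool.Agent.Y703.CQ (prs GdA c2)
open Pool.Agent.Y219.CQ (F bf bf_apply bf_symm bf_add bf_single Gs mf mf_apply mA mC mZ mL pa pa_surj
  gd_iff zx zx_of zx_not sum_zx mZ_symm mL_symm bf_l bf_r all_zero)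
open Pool.Agent.Y697.PQ (JJ mem_JJ thmJ gi)
open Pool.Agent.Y697.PP (YY mem_YY)
open Pool.Agent.Y697.CJ

section main

variable {U J : Type} [Fintype U] [Fintype J] [LinearOrder J]

/-- the difference of the labels -/
def de (m m' : Finset U) (C : J → U → F) (g g' : J → F) (j : J) : F :=
  (∑ u ∈ m, C j u + g j) + (∑ u ∈ m', C j u + g' j)

theorem finrank_JJ_le' {U1 : Finset U} {J1 : Finset J} (m m' : Finset U)
    {A : U → U → F} {B : U → J → F} {C : J → U → F} {f f' : U → F} {g g' : J → F} :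
    finrank (ZMod 2) (JJ (BM U1 J1 m A B C f g) (BM U1 J1 m' A B C f' g')
      (LinearMap.ker (LinearMap.snd (ZMod 2) (U1 → F) (J1 → F)))) ≤
    2 * U1.card + (J1.card - (J1.filter fun j => de m m' C g g' j ≠ 0).card) := by
  set K := JJ (BM U1 J1 m A B C f g) (BM U1 J1 m' A B C f' g')
      (LinearMap.ker (LinearMap.snd (ZMod 2) (U1 → F) (J1 → F))) with hK
  let φ : K →ₗ[ZMod 2] ((U1 → F) × (U1 → F)) × ({j : J1 // de m m' C g g' j = 0} → F) :=
    { toFun := fun p => ((p.1.1.1, p.1.2.1), fun j => p.1.1.2 j.1)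
      map_add' := fun _ _ => rfl
      map_smul' := fun _ _ => rfl }
  have hinj : Function.Injective φ := by
    rw [← LinearMap.ker_eq_bot, LinearMap.ker_eq_bot']
    rintro ⟨⟨⟨a, y⟩, ⟨b, y'⟩⟩, hp⟩ h0
    have hp' := mem_JJ.1 hp
    have e1 : a = 0 := congrArg (fun z => z.1.1) h0
    have e2 : b = 0 := congrArg (fun z => z.1.2) h0
    have e3 : ∀ j : J1, de m m' C g g' j = 0 → y j = 0 := fun j hj =>
      congrFun (congrArg (fun z => z.2) h0) ⟨j, hj⟩
    have e4 : y + y' = 0 := hp'.1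
    have e5 : y' = y := by
      funext j
      have := congrFun e4 j
      have h2 : y j + y' j = 0 := this
      linear_combination h2 - (y j) * two0'
    subst e5
    subst e1
    subst e2
    have e6 : ∀ j : J1, y' j = 0 := by
      intro j
      by_cases hj : de m m' C g g' j = 0
      · exact e3 j hj
      · have h1 := LinearMap.congr_fun hp'.2.1 (0, Pi.single j 1)
        unfold BM at h1
        simp only at h1
        rw [mf_apply, mf_apply] at h1
        simp only [map_zero, LinearMap.zero_apply, zero_add, bf_r] at h1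
        have h2 : ∀ (mm : Finset U) (gg : J → F), ∑ i : J1, (∑ k : J1, mZ J1 (Cm mm C) gg i k *
            (Pi.single j (1 : F) : J1 → F) k) * y' i = (∑ u ∈ mm, C j u + gg j) * y' j := by
          intro mm gg
          have h3 : ∀ i : J1, (∑ k : J1, mZ J1 (Cm mm C) gg i k *
            (Pi.single j (1 : F) : J1 → F) k) = mZ J1 (Cm mm C) gg i j := by
            intro i
            rw [sum_eq_single j]
            · rw [Pi.single_eq_same, mul_one]
            · intro k _ hk
              rw [Pi.single_eq_of_ne hk, mul_zero]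
            · intro h
              exact absurd (mem_univ _) h
          simp only [h3]
          rw [sum_eq_single j]
          · unfold Pool.Agent.Y219.CQ.mZ
            rw [if_pos rfl, sum_Cm]
          · intro i _ hi
            unfold Pool.Agent.Y219.CQ.mZ
            rw [if_neg hi, zero_mul]
          · intro h
            exact absurd (mem_univ _) h
        rw [h2, h2] at h1
        have h3 : de m m' C g g' j = 1 := by
          have : ∀ z : F, z ≠ 0 → z = 1 := by decide
          exact this _ hj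
        have h4 : y' j * de m m' C g g' j = 0 := by
          unfold de
          linear_combination h1 + (y' j * (∑ u ∈ m', C j u + g' j)) * two0'
        rw [h3, mul_one] at h4
        exact h4
    have e7 : y' = 0 := funext e6
    exact Subtype.ext (Prod.ext (Prod.ext rfl e7) (Prod.ext rfl e7))
  have h1 := LinearMap.finrank_le_finrank_of_injective hinj
  rw [Module.finrank_prod, Module.finrank_prod, Module.finrank_fintype_fun_eq_card,
    Module.finrank_fintype_fun_eq_card, Fintype.card_coe] at h1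
  have h2 : Fintype.card {j : J1 // de m m' C g g' j = 0} +
      (J1.filter fun j => de m m' C g g' j ≠ 0).card = J1.card := by
    have h3 : Fintype.card {j : J1 // de m m' C g g' j = 0} =
        (J1.filter fun j => de m m' C g g' j = 0).card := by
      rw [← Fintype.card_coe]
      refine Fintype.card_congr {
        toFun := fun Y => ⟨Y.1.1, Finset.mem_filter.2 ⟨Y.1.2, Y.2⟩⟩
        invFun := fun Y => ⟨⟨Y.1, (Finset.mem_filter.1 Y.2).1⟩, (Finset.mem_filter.1 Y.2).2⟩
        left_inv := fun _ => rfl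
        right_inv := fun _ => rfl }
    rw [h3]
    exact Finset.card_filter_add_card_filter_not _
  omega

theorem laj_f (M : ℕ) : ∀ ε : ℝ, 0 < ε → ∃ R : ℕ, ∀ (U J : Type) [Fintype U] [Fintype J]
    [LinearOrder J] (U1 : Finset U) (J1 : Finset J), (∃ l, l ∉ J1) →
    ∀ (A : U → U → ZMod 2) (B : U → J → ZMod 2) (C : J → U → ZMod 2) (f : Fin M → U → ZMod 2)
    (g : Fin M → J → ZMod 2),
    (∀ u ∈ U1, ∀ v ∈ U1, A u v = A v u) → (∀ u ∈ U1, ∀ k ∈ J1, B u k = C k u) →
    (∀ w : U → ZMod 2, (∀ u, u ∉ U1 → w u = 0) → (∃ u, w u ≠ 0) →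
      ∃ k ∈ J1, ∑ u, w u * C k u ≠ 0) →
    ∀ (m : Fin M → Finset U) (A₀ : ℕ), 2 * U1.card + R ≤ A₀ → A₀ ≤ J1.card →
    (∀ k l, k ≠ l → A₀ ≤ (J1.filter fun j => de (m k) (m l) C (g k) (g l) j ≠ 0).card) →
    |((univ.filter fun α : prs J1 → ZMod 2 => ∀ k,
      GdM U1 J1 (m k) A B C (Pool.Agent.Y703.CQ.ext α) (f k) (g k)).card : ℝ) / 2 ^ (prs J1).card -
        gi ^ M| ≤ ε := by
  intro ε hε
  obtain ⟨R, hR⟩ := thmJ M ε hε
  refine ⟨R, ?_⟩
  intro U J _ _ _ U1 J1 hJ A B C f g hA hB hC m A₀ hA₀ hJ1 hm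
  have e1 : finrank F (U1 → F) = U1.card := by
    rw [finrank_fintype_fun_eq_card, Fintype.card_coe]
  have e2 : finrank F (J1 → F) = J1.card := by
    rw [finrank_fintype_fun_eq_card, Fintype.card_coe]
  have e3 : finrank (ZMod 2) ((U1 → F) × (J1 → F)) = U1.card + J1.card := by
    rw [Module.finrank_prod, e1, e2]
  have e4 : finrank (ZMod 2) (LinearMap.ker (LinearMap.snd (ZMod 2) (U1 → F) (J1 → F))) =
      U1.card := by
    have h1 := LinearMap.finrank_range_add_finrank_ker (LinearMap.snd (ZMod 2) (U1 → F) (J1 → F))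
    rw [LinearMap.range_eq_top.2 (LinearMap.snd_surjective), finrank_top, e2, e3] at h1
    omega
  have key := hR ((U1 → F) × (J1 → F)) (LinearMap.ker (LinearMap.snd (ZMod 2) (U1 → F) (J1 → F)))
    (fun k => BM U1 J1 (m k) A B C (f k) (g k)) (2 * U1.card + (J1.card - A₀)) J1.card
    (fun k => BM_symm U1 J1 (m k) A B C (f k) (g k) hA) (fun k => nd_BM (m k) hC)
    (fun k l hkl => (finrank_JJ_le' (m k) (m l)).trans (by
      have := hm k l hkl
      omega)) (by rw [e4]; omega) (by rw [e3, e4]) (by omega)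
  have hpos : 0 < ((YY (LinearMap.ker (LinearMap.snd (ZMod 2) (U1 → F) (J1 → F)))).card : ℝ) := by
    rw [Nat.cast_pos, Finset.card_pos]
    refine ⟨0, mem_YY.2 ⟨fun _ _ => rfl, fun _ _ => rfl⟩⟩
  obtain ⟨P, hP⟩ : ∃ P : LinearMap.BilinForm (ZMod 2) ((U1 → F) × (J1 → F)) → Prop,
      ∀ Y, P Y ↔ ∀ k, Pool.Agent.Y697.PP.Nd (BM U1 J1 (m k) A B C (f k) (g k) + Y) ⊤ :=
    ⟨_, fun _ => Iff.rfl⟩
  have h1 : |(((YY (LinearMap.ker (LinearMap.snd (ZMod 2) (U1 → F) (J1 → F)))).filter P).card : ℝ) /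
      ((YY (LinearMap.ker (LinearMap.snd (ZMod 2) (U1 → F) (J1 → F)))).card : ℝ) - gi ^ M| ≤ ε := by
    rw [div_sub' hpos.ne', abs_div, abs_of_pos hpos, div_le_iff₀ hpos, mul_comm _ (gi ^ M)]
    refine le_trans (le_of_eq ?_) key
    congr 4
    ext Y
    simp only [Finset.mem_filter, hP]
  rw [yy_card] at h1
  refine le_trans (le_of_eq ?_) h1
  congr 2
  rw [← Pool.Agent.Y759.CX.fr_comp (pa J1) (pa_surj J1 hJ)]
  unfold Pool.Agent.Y759.CX.fr
  have h6 : Nat.card (prs J1 → F) = 2 ^ (prs J1).card := by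
    rw [Nat.card_fun, Nat.card_eq_fintype_card, Nat.card_eq_fintype_card, ZMod.card,
      Fintype.card_coe]
  rw [h6, Nat.card_eq_fintype_card, Fintype.card_subtype]
  push_cast
  congr 3
  ext α
  simp only [Finset.mem_filter, hP, gdM_nd U1 J1 _ A B C _ _ hA hB α]

end main

/-- the probability that a random symmetric completion is good for all the masks and all the
functions. -/
theorem t_FLA : ∀ (M : ℕ) (ε : ℝ), 0 < ε → ∃ R : ℕ, ∀ (U J : Type) [Fintype U] [Fintype J]
  [LinearOrder J] (U1 : Finset U) (J1 : Finset J), (∃ l, l ∉ J1) → ∀ (m : Fin M → Finset U)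
  (A : U → U → ZMod 2) (B : U → J → ZMod 2) (C : J → U → ZMod 2) (f : Fin M → U → ZMod 2)
  (g : Fin M → J → ZMod 2),
  (∀ u ∈ U1, ∀ v ∈ U1, A u v = A v u) → (∀ u ∈ U1, ∀ k ∈ J1, B u k = C k u) →
  (∀ w : U → ZMod 2, (∀ u, u ∉ U1 → w u = 0) → (∃ u, w u ≠ 0) → ∃ k ∈ J1, ∑ u, w u * C k u ≠ 0) →
  2 * U1.card + R ≤ J1.card →
  (∀ i j, i ≠ j → 2 * U1.card + R ≤ (J1.filter fun k =>
    (∑ u ∈ m i, C k u + g i k) + (∑ u ∈ m j, C k u + g j k) ≠ 0).card) →
  |((univ.filter fun α : prs J1 → ZMod 2 => ∀ i,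
      Pool.Agent.Y687.JQ.GdM (m i) U1 J1 A B C (Pool.Agent.Y703.CQ.ext α) (f i) (g i)).card : ℝ) /
      2 ^ (prs J1).card - c2 ^ M| ≤ ε := by
  intro M ε hε
  obtain ⟨R, hR⟩ := laj_f M ε hε
  refine ⟨R, ?_⟩
  intro U J _ _ _ U1 J1 hJ m A B C f g hA hB hC h1 h2
  have h3 := hR U J U1 J1 hJ A B C f g hA hB hC m (2 * U1.card + R) le_rfl h1
    (fun k l hkl => h2 k l hkl)
  rw [Pool.Agent.Y697.CJ.gi_eq] at h3
  have h4 : (univ.filter fun α : prs J1 → ZMod 2 => ∀ i,
      Pool.Agent.Y687.JQ.GdM (m i) U1 J1 A B C (Pool.Agent.Y703.CQ.ext α) (f i) (g i)) =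
      univ.filter fun α : prs J1 → ZMod 2 => ∀ i,
      Pool.Agent.Y697.CJ.GdM U1 J1 (m i) A B C (Pool.Agent.Y703.CQ.ext α) (f i) (g i) := by
    ext α
    simp only [mem_filter, Pool.Agent.Y697.JQ.gdM_eq]
  rw [h4]
  exact h3

end Pool.Agent.V11291.JF
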