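import Pool.Agent.Y687.JQ.Stm

/-!
# Several functions on the diagonal: the statements
-/

set_option autoImplicit false
set_option linter.unusedVariables false

open scoped Classical

namespace Pool.Agent.V11291.JF

open Finset
open Pool.Agent.Y703.CX (sm la jj XX eL zz kk S_SIE)
open Pool.Agent.Y703.CQ
open Pool.Agent.Y687.JQ (GdM S_JBAD)

/-- the symmetric differences with the masks are all good, each for its own function -/
def GdF {M : ℕ} (f : Fin M → ℕ → ZMod 2) (V : Fin M → Finset ℕ) (S : Finset ℕ) : Prop :=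
  ∀ i, Gd (f i) (symmDiff S (V i))

/-- the masks -/
def OkV {M : ℕ} (W : Finset ℕ) (V : Fin M → Finset ℕ) : Prop :=
  (∀ u ∈ W, u.Prime ∧ u ≠ 2 ∧ u ≠ 7) ∧ ∀ i, V i ⊆ W

/-- the difference of two labels -/
noncomputable def df {M : ℕ} (f : Fin M → ℕ → ZMod 2) (V : Fin M → Finset ℕ) (i j : Fin M)
    (p : ℕ) : ZMod 2 :=
  f i p + f j p + ∑ u ∈ symmDiff (V i) (V j), nr p u

/-- many split primes separate the indices -/
def Sep {M : ℕ} (f : Fin M → ℕ → ZMod 2) (V : Fin M → Finset ℕ) : Prop :=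
  ∀ i j, i ≠ j → ∃ δ C : ℝ, 0 < δ ∧ ∀ y : ℕ, 3 ≤ y →
    δ * Real.log (Real.log y) - C ≤
    ∑ p ∈ (range (y + 1)).filter (fun p => Sp p ∧ df f V i j p ≠ 0), (1 : ℝ) / p

/-- the labels of the large primes `S₁` with respect to the small ones `S₀` and to `W` are not
degenerate, and they separate the indices -/
def NdF {M : ℕ} (R : ℕ) (W : Finset ℕ) (f : Fin M → ℕ → ZMod 2) (V : Fin M → Finset ℕ)
    (S₀ S₁ : Finset ℕ) : Prop :=
  Nd (S₀ ∪ W) S₁ ∧ 2 * (S₀ ∪ W).card + R ≤ (S₁.filter fun p => p % 8 = 1).card ∧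
    ∀ i j, i ≠ j → 2 * (S₀ ∪ W).card + R ≤
      (S₁.filter fun p => p % 8 = 1 ∧ df f V i j p ≠ 0).card

/-- the count in a box. -/
def S_FBOX : Prop := S_EQ → ∀ (M : ℕ) (ε : ℝ), 0 < ε → ∃ R : ℕ, ∀ (f : Fin M → ℕ → ZMod 2)
  (ι : Type) [Fintype ι] [LinearOrder ι] (J1 : Finset ι) (C : ι → Finset ℕ) (X : ι → ℕ) (κ : ℝ)
  (S₀ W : Finset ℕ) (V : Fin M → Finset ℕ), (∀ i, V i ⊆ W) → 0 ≤ κ →
  (∀ i, (C i).card ≤ X i) → HB J1 C X κ → (∀ u ∈ S₀ ∪ W, u.Prime ∧ u ≠ 2) →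
  (∀ i, ∀ p ∈ C i, p.Prime ∧ p ≠ 2 ∧ p ∉ S₀ ∪ W ∧ (i ∈ J1 ↔ p % 8 = 1)) →
  (∀ i l, i ≠ l → Disjoint (C i) (C l)) → (∃ i, i ∉ J1) →
  |(((Fintype.piFinset C).filter fun p => NdF R W f V S₀ (univ.image p) ∧
      GdF f V (S₀ ∪ univ.image p)).card : ℝ) -
      c2 ^ M * (((Fintype.piFinset C).filter fun p => NdF R W f V S₀ (univ.image p)).card : ℝ)| ≤
    ε * (((Fintype.piFinset C).filter fun p => NdF R W f V S₀ (univ.image p)).card : ℝ) +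
    2 ^ ((2 * (S₀ ∪ W).card + 1 + M) * Fintype.card ι + (prs J1).card) * (κ * ∏ j, (X j : ℝ))

/-- the sum over the boxes. -/
def S_FKEY : Prop := S_BIL → S_EQ → S_FBOX → ∀ (M : ℕ) (ε : ℝ), 0 < ε →
  ∃ (R : ℕ) (C : ℝ), 1 ≤ C ∧
  ∀ (I K : Finset ℕ) (f : Fin M → ℕ → ZMod 2) (X z H k V N : ℕ) (κ : ℝ) (W : Finset ℕ)
  (U : Fin M → Finset ℕ), OkV W U → (∀ u ∈ W, u ≤ z) → W.card ≤ k → M ≤ k →
  Ok I K → 1 ≤ X → 1 ≤ H → 1 ≤ z → 0 ≤ κ → C ≤ κ ^ 12 * z → (H : ℝ) * Real.log X < N →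
  |(((RR I K X z H k V).filter fun S => NdF R W f U (sm z S) (la z S) ∧ GdF f U S).card : ℝ) -
      c2 ^ M * (((RR I K X z H k V).filter fun S => NdF R W f U (sm z S) (la z S)).card : ℝ)| ≤
    ε * ((RR I K X z H k V).card : ℝ) +
    (9 * N + 9 : ℝ) ^ k * (3 ^ (7 * k ^ 2) * κ) * (X * (1 + Real.log X))

/-- few sets have few large split primes of a set of primes of positive density. -/
def S_FFEW : Prop := S_SIE → S_MER → ∀ (I K : Finset ℕ) (b : ℕ → ZMod 2) (δ₀ C₀ : ℝ) (R : ℕ),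
  Ok I K → 0 < δ₀ →
  (∀ y : ℕ, 3 ≤ y → δ₀ * Real.log (Real.log y) - C₀ ≤
    ∑ p ∈ (range (y + 1)).filter (fun p => Sp p ∧ b p ≠ 0), (1 : ℝ) / p) →
  ∃ (δ C : ℝ) (X₀ : ℕ), 0 < δ ∧ ∀ X : ℕ, X₀ ≤ X →
  (((SS I K X).filter fun S => ((la (zz X) S).filter fun p => p % 8 = 1 ∧
      b p ≠ 0).card < 2 * (sm (zz X) S).card + R).card : ℝ) ≤
    C * X * (Real.log X) ^ (-1 + dl I - δ : ℝ)

/-- FINAL: the proportion of the jointly good sets -/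
def S_FDQ : Prop := ∀ (I K : Finset ℕ) (M : ℕ) (f : Fin M → ℕ → ZMod 2) (W : Finset ℕ)
  (V : Fin M → Finset ℕ), Ok I K → OkV W V → Sep f V → Filter.Tendsto
    (fun X : ℕ => (((SS I K X).filter (GdF f V)).card : ℝ) / ((SS I K X).card : ℝ))
    Filter.atTop (nhds (c2 ^ M))

/-- FINAL, in terms of the numbers `D`. -/
def S_FDEN : Prop := ∀ (I K : Finset ℕ) (M : ℕ) (f : Fin M → ℕ → ZMod 2) (W : Finset ℕ)
  (V : Fin M → Finset ℕ), Ok I K → OkV W V → Sep f V → Filter.Tendsto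
  (fun X : ℕ => (((Icc 1 X).filter fun D => Squarefree D ∧ Cl I K D.primeFactors ∧
      GdF f V D.primeFactors).card : ℝ) /
    (((Icc 1 X).filter fun D => Squarefree D ∧ Cl I K D.primeFactors).card : ℝ))
  Filter.atTop (nhds (c2 ^ M))

end Pool.Agent.V11291.JF
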