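import Pool.Agent.Y697.JQ.BOX
import Pool.Agent.V11291.JF.Stm
import Pool.Agent.V11291.JF.LA

/-!
# Several functions on the diagonal: the count in a box

Adapted from `Pool.Agent.Y697.JQ.BOX` (helper697, helper657).
-/

set_option autoImplicit false

open scoped Classical

namespace Pool.Agent.V11291.JF

open Finset
open Pool.Agent.Y703.CQ
open Pool.Agent.Y657.CQ (Lb lb LN nr_self nr_symm nd_iff sum_un ext_sum HB_sub)
open Pool.Agent.Y687.JQ (GdM)
open Pool.Agent.Y697.JQ (pt ue mem_pt mem_ue sum_pt add_pt sd_sd gdM_iff sd_union sd_sub)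

/-- the type of the labels -/
abbrev Lf (S₀ : Finset ℕ) (M : ℕ) : Type := Lb S₀ × (Fin M → ZMod 2)

/-- the label of a prime -/
noncomputable def lf {M : ℕ} (f : Fin M → ℕ → ZMod 2) (S₀ : Finset ℕ) (x : ℕ) : Lf S₀ M :=
  (lb (fun _ => 0) S₀ x, fun i => f i x)

/-- the difference of two labels -/
noncomputable def dl' {M : ℕ} {S₁ : Finset ℕ} (V : Fin M → Finset ℕ) (i j : Fin M)
    (β : Lf S₁ M) : ZMod 2 :=
  β.2 i + β.2 j + ∑ u ∈ pt S₁ (symmDiff (V i) (V j)), β.1.2.1 u

/-- the good labels -/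
def LF {ι : Type} {M : ℕ} (R : ℕ) (S₁ : Finset ℕ) (V : Fin M → Finset ℕ) (J1 : Finset ι)
    (β : ι → Lf S₁ M) : Prop :=
  LN S₁ J1 (fun i => (β i).1) ∧ 2 * S₁.card + R ≤ J1.card ∧ ∀ i j, i ≠ j →
    2 * S₁.card + R ≤ (J1.filter fun k => dl' V i j (β k) ≠ 0).card

theorem dl'_lf {M : ℕ} {S₀ W : Finset ℕ} (f : Fin M → ℕ → ZMod 2) {V : Fin M → Finset ℕ}
    (hV : ∀ i, V i ⊆ W) (i j : Fin M) (q : ℕ) :
    dl' V i j (lf f (S₀ ∪ W) q) = df f V i j q := by
  have hs : symmDiff (V i) (V j) ⊆ S₀ ∪ W := by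
    intro x hx
    rw [Finset.mem_symmDiff] at hx
    rw [Finset.mem_union]
    rcases hx with hx | hx
    · exact Or.inr (hV i hx.1)
    · exact Or.inr (hV j hx.1)
  unfold dl' df lf
  rw [sum_pt hs]
  rfl

theorem ndF_iff {ι : Type} [Fintype ι] {M : ℕ} {J1 : Finset ι} {S₀ W : Finset ℕ}
    (f : Fin M → ℕ → ZMod 2) {V : Fin M → Finset ℕ} {p : ι → ℕ} (R : ℕ)
    (hV : ∀ i, V i ⊆ W)
    (hp : Function.Injective p) (hJ : ∀ i, p i % 8 = 1 ↔ i ∈ J1) :
    NdF R W f V S₀ (univ.image p) ↔ LF R (S₀ ∪ W) V J1 (fun i => lf f (S₀ ∪ W) (p i)) := by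
  unfold NdF LF
  have h1 : ((univ.image p).filter fun q => q % 8 = 1).card = J1.card := by
    have h2 : (univ.image p).filter (fun q => q % 8 = 1) = J1.image p := by
      ext q
      simp only [Finset.mem_filter, Finset.mem_image, Finset.mem_univ, true_and]
      constructor
      · rintro ⟨⟨i, rfl⟩, h⟩
        exact ⟨i, (hJ i).1 h, rfl⟩
      · rintro ⟨i, hi, rfl⟩
        exact ⟨⟨i, rfl⟩, (hJ i).2 hi⟩
    rw [h2, Finset.card_image_of_injective _ hp]
  have h3 : ∀ i j, ((univ.image p).filter fun q => q % 8 = 1 ∧ df f V i j q ≠ 0).card =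
      (J1.filter fun k => dl' V i j (lf f (S₀ ∪ W) (p k)) ≠ 0).card := by
    intro i j
    have h4 : (univ.image p).filter (fun q => q % 8 = 1 ∧ df f V i j q ≠ 0) =
        (J1.filter fun k => dl' V i j (lf f (S₀ ∪ W) (p k)) ≠ 0).image p := by
      ext q
      simp only [Finset.mem_filter, Finset.mem_image, Finset.mem_univ, true_and]
      constructor
      · rintro ⟨⟨k, rfl⟩, h5, h6⟩
        refine ⟨k, ⟨(hJ k).1 h5, ?_⟩, rfl⟩
        rw [dl'_lf f hV]
        exact h6
      · rintro ⟨k, ⟨hk, h6⟩, rfl⟩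
        refine ⟨⟨k, rfl⟩, (hJ k).2 hk, ?_⟩
        rw [dl'_lf f hV] at h6
        exact h6
    rw [h4, Finset.card_image_of_injective _ hp]
  rw [nd_iff (fun _ => 0) hJ, h1]
  refine and_congr_right fun _ => and_congr_right fun _ => ?_
  constructor
  · intro h i j hne
    rw [← h3 i j]
    exact h i j hne
  · intro h i j hne
    rw [h3 i j]
    exact h i j hne

/-- **The joint count in a box.** -/
theorem t_FBOX : S_FBOX := by
  intro hEQ M ε hε
  obtain ⟨R₀, hLA⟩ := t_FLA M ε hε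
  refine ⟨R₀, ?_⟩
  intro f ι _ _ J1 C X κ S₀ W Vm hVW hκ hCX hHB hS₁ hC hdis hne
  set S₁ := S₀ ∪ W with hS₁d
  set R : ℝ := 2 ^ (prs J1).card * (κ * ∏ j, (X j : ℝ)) with hR
  have hR0 : 0 ≤ R := mul_nonneg (by positivity)
    (mul_nonneg hκ (Finset.prod_nonneg fun j _ => by positivity))
  -- facts on tuples
  have hinj : ∀ p ∈ Fintype.piFinset C, Function.Injective p := by
    intro p hp i j hij
    rw [Fintype.mem_piFinset] at hp
    by_contra hne
    have h1 := Finset.disjoint_left.1 (hdis i j hne) (hp i)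
    rw [hij] at h1
    exact h1 (hp j)
  have hJ : ∀ p ∈ Fintype.piFinset C, ∀ i, p i % 8 = 1 ↔ i ∈ J1 := by
    intro p hp i
    rw [Fintype.mem_piFinset] at hp
    exact (hC i _ (hp i)).2.2.2.symm
  have hd : ∀ p ∈ Fintype.piFinset C, ∀ i, p i ∉ S₁ := by
    intro p hp i
    rw [Fintype.mem_piFinset] at hp
    exact (hC i _ (hp i)).2.2.1
  have hpr : ∀ p ∈ Fintype.piFinset C, ∀ i, (p i).Prime ∧ p i ≠ 2 := by
    intro p hp i
    rw [Fintype.mem_piFinset] at hp
    exact ⟨(hC i _ (hp i)).1, (hC i _ (hp i)).2.1⟩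
  have hU1 : (ue S₁).card ≤ S₁.card := by
    refine (Finset.card_le_univ _).trans ?_
    rw [Fintype.card_coe]
  have hgd : ∀ p ∈ Fintype.piFinset C, (GdF f Vm (S₀ ∪ univ.image p) ↔
      ∀ i, GdM (pt S₁ (symmDiff S₀ (Vm i))) (ue S₁) J1
      (fun u v : S₁ => nr u v) (fun (u : S₁) l => nr u (p l)) (fun k (u : S₁) => nr (p k) u)
      (Pool.Agent.Y703.CQ.ext fun e : prs J1 => nr (p e.1.1) (p e.1.2))
      (fun u : S₁ => f i u) (fun k => f i (p k))) := by
    intro p hp
    have hP : ∀ x ∈ univ.image p, x ∉ S₀ ∪ W := by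
      intro x hx
      rw [Finset.mem_image] at hx
      obtain ⟨i, -, rfl⟩ := hx
      exact hd p hp i
    unfold GdF
    refine forall_congr' fun i => ?_
    rw [sd_union (hVW i) hP]
    exact gdM_iff (f i) (sd_sub (hVW i)) (hinj p hp) (hpr p hp) (hd p hp) (hJ p hp)
  -- the part with given labels
  have h1 : ∀ β : ι → Lf S₁ M, LF R₀ S₁ Vm J1 β →
      |(((Fintype.piFinset C).filter fun p => (fun i => lf f S₁ (p i)) = β ∧
          GdF f Vm (S₀ ∪ univ.image p)).card : ℝ) -
        c2 ^ M * (((Fintype.piFinset C).filter fun p =>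
          (fun i => lf f S₁ (p i)) = β).card : ℝ)| ≤
      ε * (((Fintype.piFinset C).filter fun p => (fun i => lf f S₁ (p i)) = β).card : ℝ) + R := by
    intro β hβ
    by_cases hemp : ((Fintype.piFinset C).filter fun p => (fun i => lf f S₁ (p i)) = β) = ∅
    · have he2 : ((Fintype.piFinset C).filter fun p => (fun i => lf f S₁ (p i)) = β ∧
          GdF f Vm (S₀ ∪ univ.image p)) = ∅ := by
        rw [← Finset.filter_filter, hemp, Finset.filter_empty]
      rw [he2, hemp]
      simpa using hR0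
    obtain ⟨p₀, hp₀⟩ := Finset.nonempty_iff_ne_empty.2 hemp
    rw [Finset.mem_filter] at hp₀
    obtain ⟨hp₀, hp₀β⟩ := hp₀
    set C' : ι → Finset ℕ := fun i => (C i).filter fun q => lf f S₁ q = β i with hC'
    have hpi : (Fintype.piFinset C).filter (fun p => (fun i => lf f S₁ (p i)) = β) =
        Fintype.piFinset C' := by
      ext p
      simp only [Finset.mem_filter, Fintype.mem_piFinset, hC']
      constructor
      · rintro ⟨h2, h3⟩ i
        exact ⟨h2 i, congrFun h3 i⟩
      · intro h2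
        exact ⟨fun i => (h2 i).1, funext fun i => (h2 i).2⟩
    have h2 := hLA S₁ ι (ue S₁) J1 hne (fun i => pt S₁ (symmDiff S₀ (Vm i)))
      (fun u v => nr u v) (fun u l => (β l).1.1 u) (fun k u => (β k).1.2.1 u) (fun i u => f i u)
      (fun i k => (β k).2 i)
      (by
        intro u hu v hv
        exact nr_symm (hS₁ u u.2).1 ((mem_ue u).1 hu) (hS₁ v v.2).1 (hS₁ v v.2).2)
      (by
        intro u hu k hk
        have h3 := congrFun hp₀β k
        rw [← h3]
        exact nr_symm (hS₁ u u.2).1 ((mem_ue u).1 hu) (hpr p₀ hp₀ k).1 (hpr p₀ hp₀ k).2)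
      (by
        rintro w hw0 ⟨u, hu⟩
        have hu8 : (u : ℕ) % 8 = 1 := by
          by_contra h8
          exact hu (hw0 u fun hu' => h8 ((mem_ue u).1 hu'))
        obtain ⟨k, hk, hk2⟩ := hβ.1 w ⟨u, hu8, hu⟩
        refine ⟨k, hk, ?_⟩
        rw [Finset.sum_filter] at hk2
        intro h0
        apply hk2
        refine Eq.trans ?_ h0
        refine Finset.sum_congr rfl fun v _ => ?_
        split_ifs with h8
        · rfl
        · rw [hw0 v fun hv => h8 ((mem_ue v).1 hv), zero_mul])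
      (by
        have h3 := hβ.2.1
        omega)
      (by
        intro i j hij
        have h3 := hβ.2.2 i j hij
        have h4 : (J1.filter fun k => (∑ u ∈ pt S₁ (symmDiff S₀ (Vm i)), (β k).1.2.1 u +
            (β k).2 i) + (∑ u ∈ pt S₁ (symmDiff S₀ (Vm j)), (β k).1.2.1 u + (β k).2 j) ≠ 0) =
            (J1.filter fun k => dl' Vm i j (β k) ≠ 0) := by
          refine Finset.filter_congr fun k _ => ?_
          have h5 := add_pt (S₁ := S₁) (A := symmDiff S₀ (Vm i)) (B := symmDiff S₀ (Vm j))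
            (fun u => (β k).1.2.1 u)
          rw [sd_sd] at h5
          have h6 : (∑ u ∈ pt S₁ (symmDiff S₀ (Vm i)), (β k).1.2.1 u +
            (β k).2 i) + (∑ u ∈ pt S₁ (symmDiff S₀ (Vm j)), (β k).1.2.1 u + (β k).2 j) =
            dl' Vm i j (β k) := by
            unfold dl'
            rw [← h5]
            ring
          rw [h6]
        rw [h4]
        omega)
    obtain ⟨Q, hQ⟩ : ∃ Q : (prs J1 → ZMod 2) → Prop, ∀ α, Q α ↔ ∀ i,
      GdM (pt S₁ (symmDiff S₀ (Vm i))) (ue S₁)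
      J1 (fun u v : S₁ => nr u v) (fun (u : S₁) l => (β l).1.1 u)
      (fun k (u : S₁) => (β k).1.2.1 u)
      (Pool.Agent.Y703.CQ.ext α) (fun u : S₁ => f i u) (fun k => (β k).2 i) :=
      ⟨_, fun _ => Iff.rfl⟩
    have h3 := hEQ ι J1 C' X κ hκ
      (fun i => (Finset.card_le_card (Finset.filter_subset _ _)).trans (hCX i))
      (HB_sub hHB fun i q => lf f S₁ q = β i) Q
    have h4 : ((Fintype.piFinset C).filter fun p => (fun i => lf f S₁ (p i)) = β ∧
        GdF f Vm (S₀ ∪ univ.image p)) = ((Fintype.piFinset C').filter fun p =>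
          Q fun e => nr (p e.1.1) (p e.1.2)) := by
      rw [← hpi, Finset.filter_filter]
      refine Finset.filter_congr fun p hp => ?_
      refine and_congr_right fun hl => ?_
      rw [hgd p hp, hQ]
      subst hl
      exact Iff.rfl
    have h5 : (((Fintype.piFinset C').card : ℕ) : ℝ) = ∏ j, ((C' j).card : ℝ) := by
      rw [Fintype.card_piFinset]
      push_cast
      rfl
    rw [h4, hpi, h5]
    have h2' : |((univ.filter Q).card : ℝ) / 2 ^ (prs J1).card - c2 ^ M| ≤ ε := by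
      rw [Finset.filter_congr fun α _ => hQ α]
      exact h2
    set n : ℝ := (((Fintype.piFinset C').filter fun p =>
          Q fun e => nr (p e.1.1) (p e.1.2)).card : ℝ) with hn
    set q : ℝ := ((univ.filter Q).card : ℝ) / 2 ^ (prs J1).card with hq
    set P : ℝ := ∏ j, ((C' j).card : ℝ) with hP
    have hP0 : 0 ≤ P := Finset.prod_nonneg fun j _ => by positivity
    have h6 : |n - c2 ^ M * P| ≤ |n - q * P| + |q - c2 ^ M| * P := by
      have h7 : n - c2 ^ M * P = (n - q * P) + (q - c2 ^ M) * P := by ring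
      have h8 : |(q - c2 ^ M) * P| = |q - c2 ^ M| * P := by rw [abs_mul, abs_of_nonneg hP0]
      rw [h7, ← h8]
      exact abs_add_le _ _
    have h7 : |q - c2 ^ M| * P ≤ ε * P := mul_le_mul_of_nonneg_right h2' hP0
    have h8 : |n - q * P| ≤ R := h3
    linarith
  -- sum over the labels
  set LL := univ.filter (fun β : ι → Lf S₁ M => LF R₀ S₁ Vm J1 β) with hLL
  have hfib : ∀ T : (ι → ℕ) → Prop,
      (((Fintype.piFinset C).filter fun p => NdF R₀ W f Vm S₀ (univ.image p) ∧ T p).card : ℝ) =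
      ∑ β ∈ LL, (((Fintype.piFinset C).filter fun p =>
        (fun i => lf f S₁ (p i)) = β ∧ T p).card : ℝ) := by
    intro T
    rw [Finset.card_eq_sum_card_fiberwise (f := fun (p : ι → ℕ) (i : ι) => lf f S₁ (p i))
      (t := LL) (by
        intro p hp
        rw [Finset.mem_coe, Finset.mem_filter] at hp
        rw [Finset.mem_coe, hLL, Finset.mem_filter]
        exact ⟨Finset.mem_univ _, (ndF_iff f R₀ hVW (hinj p hp.1) (hJ p hp.1)).1 hp.2.1⟩)]
    push_cast
    refine Finset.sum_congr rfl fun β hβ => ?_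
    rw [hLL, Finset.mem_filter] at hβ
    congr 2
    ext p
    simp only [Finset.mem_filter]
    constructor
    · rintro ⟨⟨h3, h4, h4'⟩, h5⟩
      exact ⟨h3, h5, h4'⟩
    · rintro ⟨h3, h4, h5⟩
      refine ⟨⟨h3, ?_, h5⟩, h4⟩
      refine (ndF_iff f R₀ hVW (hinj p h3) (hJ p h3)).2 ?_
      rw [← hS₁d, h4]
      exact hβ.2
  have hf1 := hfib fun p => GdF f Vm (S₀ ∪ univ.image p)
  have hf2 := hfib fun _ => True
  simp only [and_true] at hf2
  rw [hf1, hf2, Finset.mul_sum, ← Finset.sum_sub_distrib]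
  refine (Finset.abs_sum_le_sum_abs _ _).trans ?_
  refine (Finset.sum_le_sum fun β hβ => h1 β (Finset.mem_filter.1 hβ).2).trans ?_
  rw [Finset.sum_add_distrib, ← Finset.mul_sum, Finset.sum_const, nsmul_eq_mul]
  have h5 : ((LL.card : ℕ) : ℝ) ≤ 2 ^ ((2 * S₁.card + 1 + M) * Fintype.card ι) := by
    have h6 : LL.card ≤ Fintype.card (ι → Lf S₁ M) := Finset.card_le_univ _
    rw [Fintype.card_fun, Fintype.card_prod, Fintype.card_prod, Fintype.card_prod,
      Fintype.card_fun, Fintype.card_fun, ZMod.card,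
      Fintype.card_coe, Fintype.card_fin, ← pow_succ, ← pow_add, ← pow_add, ← pow_mul] at h6
    have h7 : (S₁.card + (S₁.card + 1) + M) * Fintype.card ι =
        (2 * S₁.card + 1 + M) * Fintype.card ι := by
      ring
    rw [h7] at h6
    exact_mod_cast h6
  have h6 := mul_le_mul_of_nonneg_right h5 hR0
  rw [pow_add, mul_assoc]
  linarith

end Pool.Agent.V11291.JF
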